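import Pool.Agent.Helper84.QB.Acts
import Pool.Agent.Helper61.QB.Order
import Pool.Agent.Helper33.QB.LimDefs

/-!
# Project QB, module J2a: words which are eventually defined
-/

set_option autoImplicit false

namespace Pool.Agent.Helper33.QB

open Set

universe v

variable {Ω : Type} {I : Type v} {α : Ordinal.{0}}

variable {pn : ℕ → Cnd Ω I} {p : Cnd Ω I} {xn : ℕ → Ω} {pt : ℕ → FreeGroup I → Ω}

private theorem full_letters : ∀ i x y, Full p i x y → i ∈ p.S := fun _ _ _ h => h.1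

private theorem full_stay (hb : Basic α p) : ∀ i x y, Full p i x y → (x ∈ p.Y ↔ y ∈ p.Y) := by
  intro i x y h
  exact ⟨fun hx => h.2.2 ▸ (hb.ce i h.1).maps x hx, fun _ => h.2.1⟩

private theorem r0_closure {w : FreeGroup I} (hw : w ∈ R0 p xn) :
    w ∈ Subgroup.closure (FreeGroup.of '' p.S) := by
  obtain ⟨N, hN⟩ := hw
  obtain ⟨y, hy⟩ := hN N le_rfl
  exact hy.letters full_letters

theorem LimSet.r0_countable (h : LimSet α pn p xn pt) : (R0 p xn).Countable :=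
  (countable_closure h.b.cS).mono fun _ hw => r0_closure hw

theorem LimSet.one_mem (h : LimSet α pn p xn pt) : 1 ∈ R0 p xn := by
  have _ := h
  exact ⟨0, fun n _ => ⟨xn n, Acts.one _⟩⟩

private theorem xn_mem (h : LimSet α pn p xn pt) (n : ℕ) : xn n ∈ p.Y :=
  (h.un.le (n + 1)).cp.sub (h.x n).1

theorem LimSet.of_mul_mem (h : LimSet α pn p xn pt) {w : FreeGroup I} (hw : w ∈ R0 p xn) {i : I}
    (hi : i ∈ p.S) : FreeGroup.of i * w ∈ R0 p xn := by
  obtain ⟨N, hN⟩ := hw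
  refine ⟨N, fun n hn => ?_⟩
  obtain ⟨y, hy⟩ := hN n hn
  have hyY : y ∈ p.Y := (hy.stay (full_stay h.b)).1 (xn_mem h n)
  exact ⟨p.h i y, Acts.fwd hy ⟨hi, hyY, rfl⟩⟩

/-- Finitely many letters of an increasing union occur in one of the sets. -/
private theorem closure_union (hS : Monotone fun n => (pn n).S) {w : FreeGroup I}
    (hw : w ∈ Subgroup.closure (FreeGroup.of '' (⋃ n, (pn n).S))) :
    ∃ n, w ∈ Subgroup.closure (FreeGroup.of '' (pn n).S) := by
  have hmono : Monotone fun n => Subgroup.closure (FreeGroup.of '' (pn n).S) := fun m n hmn =>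
    Subgroup.closure_mono (image_mono (hS hmn))
  induction hw using Subgroup.closure_induction with
  | mem x hx =>
    obtain ⟨i, hi, rfl⟩ := hx
    obtain ⟨n, hn⟩ := mem_iUnion.1 hi
    exact ⟨n, Subgroup.subset_closure ⟨i, hn, rfl⟩⟩
  | one => exact ⟨0, one_mem _⟩
  | mul x y _ _ hx hy =>
    obtain ⟨m, hm⟩ := hx
    obtain ⟨n, hn⟩ := hy
    exact ⟨max m n, mul_mem (hmono (le_max_left m n) hm) (hmono (le_max_right m n) hn)⟩
  | inv x _ hx =>
    obtain ⟨m, hm⟩ := hx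
    exact ⟨m, inv_mem hm⟩

/-- A word is eventually defined by the letters of a fixed `pn m`, inside the interval. -/
theorem LimSet.acts (h : LimSet α pn p xn pt) {w : FreeGroup I} (hw : w ∈ R0 p xn) :
    ∃ N : ℕ, ∀ n ≥ N, Acts (New (pn n) p) w (xn n) (pt n w) ∧ pt n w ∈ Itv pn n := by
  have hSm : Monotone fun n => (pn n).S := monotone_nat_of_le_succ fun n => (h.le n).S
  have hcl := r0_closure hw
  rw [h.un.S] at hcl
  obtain ⟨m, hm⟩ := closure_union hSm hcl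
  obtain ⟨N, hN⟩ := hw
  refine ⟨max N m, fun n hn => ?_⟩
  obtain ⟨y, hy⟩ := hN n (le_trans (le_max_left _ _) hn)
  have hpt : pt n w = y := h.pt n w y hy
  rw [hpt]
  have hmn : (pn m).S ⊆ (pn n).S := hSm (le_trans (le_max_right _ _) hn)
  have h1 : Acts (fun i x y => Full p i x y ∧ i ∈ (pn n).S) w (xn n) y :=
    (hy.over (Full.pf h.b) hm).mono fun i x y hxy => ⟨hxy.1, hmn hxy.2⟩
  have hs0 : ∀ i x y, (Full p i x y ∧ i ∈ (pn n).S) → (x ∈ (pn n).Yᶜ ↔ y ∈ (pn n).Yᶜ) := by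
    intro i x y hxy
    exact not_congr ((h.un.le n).stay (h.bn n) i x y hxy.2 hxy.1)
  have hs1 : ∀ i x y, (Full p i x y ∧ i ∈ (pn n).S) → (x ∈ (pn (n + 1)).Y ↔ y ∈ (pn (n + 1)).Y) := by
    intro i x y hxy
    exact (h.un.le (n + 1)).stay (h.bn (n + 1)) i x y ((h.le n).S hxy.2) hxy.1
  refine ⟨(h1.restrict hs0 (h.x n).2).mono ?_, (h1.stay hs1).1 (h.x n).1,
    (h1.stay hs0).1 (h.x n).2⟩
  rintro i x y ⟨⟨hf, hi⟩, hx⟩
  exact ⟨hi, hf.2.1, hx, hf.2.2⟩

end Pool.Agent.Helper33.QB
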