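import Pool.Agent.Helper54.QB.Choice1
import Pool.Agent.Helper63.QB.Union
import Pool.Agent.Helper45.QB.Choice2
import Pool.Agent.Helper64.QB.LimRing
import Pool.Agent.Helper59.QB.LimMaps
import Pool.Agent.Helper15.QB.LimSemi


/-!
# Project QB, module J5b: the limit semi-condition, all together
-/

set_option autoImplicit false

namespace Pool.Agent.Helper33.QB

open Set

universe v

variable {Ω : Type} {I : Type v} {α : Ordinal.{0}}

/-- Finitely many letters of an increasing union occur in one of the sets. -/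
private theorem h54_closure_union {pn : ℕ → Cnd Ω I} (hS : Monotone fun n => (pn n).S)
    {w : FreeGroup I} (hw : w ∈ Subgroup.closure (FreeGroup.of '' (⋃ n, (pn n).S))) :
    ∃ n, w ∈ Subgroup.closure (FreeGroup.of '' (pn n).S) := by
  have hmono : Monotone fun n => Subgroup.closure (FreeGroup.of '' (pn n).S) := fun m n hmn =>
    Subgroup.closure_mono (image_mono (hS hmn))
  induction hw using Subgroup.closure_induction with
  | mem x hx =>
    obtain ⟨i, hi, rfl⟩ := hx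
    obtain ⟨n, hn⟩ := mem_iUnion.1 hi
    exact ⟨n, Subgroup.subset_closure ⟨i, hn, rfl⟩⟩
  | one => exact ⟨0, one_mem _⟩
  | mul x y _ _ hx hy =>
    obtain ⟨m, hm⟩ := hx
    obtain ⟨n, hn⟩ := hy
    exact ⟨max m n, mul_mem (hmono (le_max_left m n) hm) (hmono (le_max_right m n) hn)⟩
  | inv x _ hx =>
    obtain ⟨m, hm⟩ := hx
    exact ⟨m, inv_mem hm⟩

private theorem h54_full_mem {q : Cnd Ω I} (hb : Basic α q) :
    ∀ i x y, Full q i x y → (x ∈ q.Y ↔ y ∈ q.Y) := by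
  intro i x y h
  exact ⟨fun hx => h.2.2 ▸ (hb.ce i h.1).maps x hx, fun _ => h.2.1⟩

/-- Paths of the letters of `q` which start in `q` are paths of `q`. -/
private theorem h54_down {q p : Cnd Ω I} (hq : Basic α q) (hp : Basic α p) (hle : Le p q)
    {S : Set I} (hS : S ⊆ q.S) {w : FreeGroup I}
    (hw : w ∈ Subgroup.closure (FreeGroup.of '' S)) {x y : Ω} (hx : x ∈ q.Y)
    (h : Acts (Full p) w x y) : Acts (Full q) w x y := by
  have h1 : Acts (fun i x y => Full p i x y ∧ i ∈ S) w x y := h.over (Full.pf hp) hw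
  have hs : ∀ i x y, (Full p i x y ∧ i ∈ S) → (x ∈ q.Y ↔ y ∈ q.Y) := fun i x y hxy =>
    hle.stay hq i x y (hS hxy.2) hxy.1
  refine (h1.restrict hs hx).mono ?_
  rintro i x y ⟨⟨hf, hi⟩, hx⟩
  exact ⟨hS hi, hx, by rw [hf.2.2, hle.h i (hS hi) x hx]⟩

/-- The path from `ν 1` to `ν w`. -/
private theorem h54_path {pn : ℕ → Cnd Ω I} {p : Cnd Ω I} {xn : ℕ → Ω}
    {pt : ℕ → FreeGroup I → Ω} {K : ℕ → FreeGroup I → Set Ω} {ν : FreeGroup I → Ω}
    (h : LimSet α pn p xn pt) (hν : InjOn ν (R0 p xn)) (hν' : ∀ w ∈ R0 p xn, ν w ∉ p.Y) :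
    ∀ (k : ℕ) (w : FreeGroup I), w ∈ R0 p xn → (∃ _ : DecidableEq I, w.toWord.length = k) →
      Acts (Full (limS pn p xn pt K ν)) w (ν 1) (ν w) := by
  intro k
  induction k with
  | zero =>
    rintro w hw ⟨hdec, hk⟩
    have : w.toWord = [] := List.length_eq_zero_iff.1 hk
    have hw1 : w = 1 := FreeGroup.toWord_eq_nil_iff.1 this
    rw [hw1]
    exact Acts.one _
  | succ k ih =>
    rintro w hw ⟨hdec, hk⟩
    obtain ⟨a, t, hat⟩ := List.exists_cons_of_length_eq_add_one hk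
    have hwt : w = FreeGroup.mk (a :: t) := by rw [← hat, FreeGroup.mk_toWord]
    have htt : (FreeGroup.mk t).toWord = t := by
      have hr : FreeGroup.IsReduced (a :: t) := hat ▸ FreeGroup.isReduced_toWord
      have hr' : FreeGroup.IsReduced t := List.IsChain.tail hr
      rw [FreeGroup.toWord_mk, hr'.reduce_eq]
    obtain ⟨N, hN⟩ := hw
    have hun : ∀ n ≥ N, ∃ y z, Acts (Full p) (FreeGroup.mk t) (xn n) z ∧
        ((a.2 = true ∧ Full p a.1 z y) ∨ (a.2 = false ∧ Full p a.1 y z)) := by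
      intro n hn
      obtain ⟨y, hy⟩ := hN n hn
      obtain ⟨z, hz⟩ := Acts.uncons (Full.pf h.b) hat hy
      exact ⟨y, z, hz⟩
    have ht : FreeGroup.mk t ∈ R0 p xn := ⟨N, fun n hn => by
      obtain ⟨y, z, hz, _⟩ := hun n hn
      exact ⟨z, hz⟩⟩
    have hk' : t.length = k := by
      rw [hat] at hk
      simpa using hk
    have hIH := ih (FreeGroup.mk t) ht ⟨hdec, by rw [htt]; exact hk'⟩
    have hi : a.1 ∈ p.S := by
      obtain ⟨y, z, _, hz | hz⟩ := hun N le_rfl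
      · exact hz.2.1
      · exact hz.2.1
    obtain ⟨i, e⟩ := a
    have hw' : w ∈ R0 p xn := ⟨N, hN⟩
    cases e with
    | true =>
      have hw2 : w = FreeGroup.of i * FreeGroup.mk t := by
        rw [hwt, FreeGroup.of, FreeGroup.mul_mk]
        rfl
      rw [hw2]
      refine Acts.fwd hIH ⟨hi, Or.inr ⟨_, ht, rfl⟩, ?_⟩
      exact (limS_h_new hν hν' hi ht).symm
    | false =>
      have hw2 : w = (FreeGroup.of i)⁻¹ * FreeGroup.mk t := by
        rw [hwt, FreeGroup.of, FreeGroup.inv_mk, FreeGroup.mul_mk]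
        rfl
      have hw3 : FreeGroup.of i * w = FreeGroup.mk t := by rw [hw2]; group
      have h4 : Acts (Full (limS pn p xn pt K ν)) ((FreeGroup.of i)⁻¹ * FreeGroup.mk t) (ν 1)
          (ν w) := by
        refine Acts.bwd hIH ⟨hi, Or.inr ⟨_, hw', rfl⟩, ?_⟩
        rw [← hw3]
        exact (limS_h_new hν hν' hi hw').symm
      rw [← hw2] at h4
      exact h4

/-- The limit semi-condition, all together. -/
theorem lim_semi [Uncountable Ω] (hα : Ind α) {pn : ℕ → Cnd Ω I} (hb : ∀ n, Basic α (pn n))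
    (hle : ∀ n, Le (pn (n + 1)) (pn n)) {xn : ℕ → Ω}
    (hx : ∀ n, xn n ∈ (pn (n + 1)).Y ∧ xn n ∉ (pn n).Y)
    (hst : ∀ w : FreeGroup I,
      (∃ N : ℕ, ∃ β : Ordinal.{0}, β < α ∧ ∀ n ≥ N, ∃ y, Acts (Full (pn (n + 1))) w (xn n) y ∧
        (pn (n + 1)).r y ≤ β) ∨
      ∃ N : ℕ, ∀ n ≥ N, ∀ y, ¬ Acts (Full (pn (n + 1))) w (xn n) y) :
    ∃ s, Semi α pn s ∧ ∃ x ∈ s.Y, x ∉ old pn ∧ (∀ K ∈ s.R, x ∈ K → ∃ N : ℕ, ∀ n ≥ N, xn n ∈ K) ∧
      ∀ (w : FreeGroup I) (β : Ordinal.{0}),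
        (∃ N : ℕ, ∀ n ≥ N, ∃ y, Acts (Full (pn (n + 1))) w (xn n) y ∧ (pn (n + 1)).r y < β) →
        ∃ y, Acts (Full s) w x y ∧ s.r y ≤ β := by
  classical
  obtain ⟨p, hpb, hun⟩ := exists_isUn hb hle
  have hSm : Monotone fun n => (pn n).S := monotone_nat_of_le_succ fun n => (hle n).S
  let pt : ℕ → FreeGroup I → Ω := fun n w =>
    if h : ∃ y, Acts (Full p) w (xn n) y then h.choose else xn n
  have hpt : ∀ n w y, Acts (Full p) w (xn n) y → pt n w = y := by
    intro n w y hy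
    have h : ∃ y, Acts (Full p) w (xn n) y := ⟨y, hy⟩
    have h1 : pt n w = h.choose := dif_pos h
    rw [h1]
    exact Acts.unique (Full.pf hpb) h.choose_spec hy
  -- values in `pn (n + 1)` are values in `p`
  have hup : ∀ n w y, Acts (Full (pn (n + 1))) w (xn n) y → Acts (Full p) w (xn n) y ∧
      p.r y = (pn (n + 1)).r y := by
    intro n w y hy
    refine ⟨hy.mono (hun.le (n + 1)).full, (hun.le (n + 1)).cp.rk y ?_⟩
    exact (hy.stay (h54_full_mem (hb (n + 1)))).1 (hx n).1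
  have hL : LimSet α pn p xn pt := by
    refine ⟨hb, hpb, hle, hun, hx, hpt, fun w => ?_⟩
    rcases hst w with ⟨N, β, hβ, hN⟩ | ⟨N, hN⟩
    · left
      refine ⟨N, β, hβ, fun n hn => ?_⟩
      obtain ⟨y, hy, hry⟩ := hN n hn
      obtain ⟨h1, h2⟩ := hup n w y hy
      exact ⟨y, h1, h2 ▸ hry⟩
    · right
      by_cases hw : w ∈ Subgroup.closure (FreeGroup.of '' p.S)
      · rw [hun.S] at hw
        obtain ⟨m, hm⟩ := h54_closure_union hSm hw
        refine ⟨max N m, fun n hn y hy => ?_⟩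
        refine hN n (le_trans (le_max_left _ _) hn) y ?_
        exact h54_down (hb (n + 1)) hpb (hun.le (n + 1))
          (hSm (le_trans (le_trans (le_max_right _ _) hn) (Nat.le_succ n))) hm (hx n).1 hy
      · exact ⟨0, fun n _ y hy => hw (hy.letters fun _ _ _ h => h.1)⟩
  obtain ⟨K, hK⟩ := exists_ek hL
  -- the new points
  obtain ⟨ν, hν, hν'⟩ : ∃ ν : FreeGroup I → Ω, InjOn ν (R0 p xn) ∧
      ∀ w ∈ R0 p xn, ν w ∉ p.Y := by
    have hinf : (p.Yᶜ : Set Ω).Infinite := by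
      intro hf
      have : (univ : Set Ω).Countable := by
        rw [← union_compl_self p.Y]
        exact hpb.cY.union hf.countable
      exact not_countable_iff.2 ‹Uncountable Ω› (countable_univ_iff.1 this)
    have hI : Infinite (p.Yᶜ : Set Ω) := hinf.to_subtype
    obtain ⟨f, hf⟩ := countable_iff_exists_injOn.1 hL.r0_countable
    refine ⟨fun w => (Infinite.natEmbedding (p.Yᶜ : Set Ω) (f w) : Ω), ?_, ?_⟩
    · intro a ha b hb' hab
      exact hf ha hb' ((Infinite.natEmbedding (p.Yᶜ : Set Ω)).injective (Subtype.ext hab))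
    · intro w _
      exact (Infinite.natEmbedding (p.Yᶜ : Set Ω) (f w)).2
  refine ⟨limS pn p xn pt K ν, limS_semi hα hL hK hν hν', ν 1, Or.inr ⟨1, hL.one_mem, rfl⟩, ?_,
    ?_, ?_⟩
  · intro h
    refine hν' 1 hL.one_mem ?_
    rw [hun.Y]
    exact h
  · rintro O ⟨_, _, _, n0, hn0⟩ hO
    obtain ⟨N, hN⟩ := hK.e1 1 hL.one_mem
    refine ⟨max n0 N, fun n hn => ?_⟩
    have h1 := (hN n (le_trans (le_max_right _ _) hn)).2.2.1
    rw [hpt n 1 (xn n) (Acts.one _)] at h1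
    have h2 : xn n ∈ O ∩ Itv pn n := by
      rw [hn0 n (le_trans (le_max_left _ _) hn)]
      exact mem_biUnion (show (1 : FreeGroup I) ∈ {w | w ∈ R0 p xn ∧ ν w ∈ O} from
        ⟨hL.one_mem, hO⟩) h1
    exact h2.1
  · rintro w β ⟨N, hN⟩
    have hw : w ∈ R0 p xn := ⟨N, fun n hn => by
      obtain ⟨y, hy, _⟩ := hN n hn
      exact ⟨y, (hup n w y hy).1⟩⟩
    refine ⟨ν w, h54_path hL hν hν' _ w hw ⟨inferInstance, rfl⟩, ?_⟩
    refine (limS_rank hα hL hν hν' hw).2 β ⟨N, fun n hn => ?_⟩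
    obtain ⟨y, hy, hry⟩ := hN n hn
    obtain ⟨h1, h2⟩ := hup n w y hy
    rw [hpt n w y h1, h2]
    exact hry

end Pool.Agent.Helper33.QB
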