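import Pool.Agent.Helper33.QB.Frame
import Pool.Agent.Helper32.HB.Nam

/-!
# Project QB, module NA2: names of elements, of sets of elements, of pairs and of relations
-/

set_option autoImplicit false

namespace Pool.Agent.Helper33.QB

open Set Pool.Agent.Helper33.HMG Pool.Agent.Helper32.HB

universe u

variable {Ω : Type} [LinearOrder Ω] [WellFoundedLT Ω]

theorem ps_equiv {x y : Ω} : PSet.Equiv (ps x) (ps y) ↔ x = y := by
  constructor
  · intro h
    induction x using WellFoundedLT.induction generalizing y with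
    | _ x ih =>
      have h' : PSet.Equiv ⟨{z : Ω // z < x}, fun z => ps z.1⟩ ⟨{z : Ω // z < y}, fun z => ps z.1⟩ := by
        rw [← ps_eq, ← ps_eq]
        exact h
      obtain ⟨h1, h2⟩ := h'
      rcases lt_trichotomy x y with hxy | hxy | hxy
      · obtain ⟨⟨a, ha⟩, hab⟩ := h2 ⟨x, hxy⟩
        have hax : a = x := ih a ha hab
        exact absurd ha (by rw [hax]; exact lt_irrefl x)
      · exact hxy
      · obtain ⟨⟨c, hc⟩, hac⟩ := h1 ⟨y, hxy⟩
        have hyc : y = c := ih y hxy hac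
        exact absurd hc (by rw [← hyc]; exact lt_irrefl y)
  · rintro rfl
    exact PSet.Equiv.rfl

theorem psS_equiv {K K' : Set Ω} : PSet.Equiv (psS K) (psS K') ↔ K = K' := by
  constructor
  · rintro ⟨h1, h2⟩
    ext x
    constructor
    · intro hx
      obtain ⟨⟨c, hc⟩, h⟩ := h1 ⟨x, hx⟩
      have : x = c := ps_equiv.1 h
      rw [this]
      exact hc
    · intro hx
      obtain ⟨⟨c, hc⟩, h⟩ := h2 ⟨x, hx⟩
      have : c = x := ps_equiv.1 h
      rw [← this]
      exact hc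
  · rintro rfl
    exact PSet.Equiv.rfl

variable {P : Type 1} [Preorder P] [OrderTop P] {p : P} {x y x' y' : Ω} {K K' : Set Ω}

theorem feq_ck : feq (ck x) (ck y) p ↔ x = y := by
  constructor
  · intro h
    exact ps_equiv.1 (nam_feq_chk h)
  · rintro rfl
    exact feq_refl _ _

theorem feq_ckS : feq (ckS K) (ckS K') p ↔ K = K' := by
  constructor
  · intro h
    exact psS_equiv.1 (nam_feq_chk h)
  · rintro rfl
    exact feq_refl _ _

theorem ck_inj (h : (ck x : Nm P) = ck y) : x = y := by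
  have h1 : feq (ck x : Nm P) (ck y) ⊤ := by
    rw [h]
    exact feq_refl _ _
  exact feq_ck.1 h1

theorem ckS_inj (h : (ckS K : Nm P) = ckS K') : K = K' := by
  have h1 : feq (ckS K : Nm P) (ckS K') ⊤ := by
    rw [h]
    exact feq_refl _ _
  exact feq_ckS.1 h1

private theorem h54_ck_eq (y : Ω) : (ck y : Nm P) =
    .mk (ULift.{1} {z : Ω // z < y}) (fun a => ck a.down.1) (fun _ => ⊤) := by
  unfold ck
  rw [ps_eq]
  rfl

theorem fmem_ck : fmem (ck x) (ck y) p ↔ x < y := by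
  rw [h54_ck_eq y]
  constructor
  · intro h
    obtain ⟨s, _, ⟨⟨z, hz⟩⟩, _, h1⟩ := h p le_rfl
    have h2 : x = z := feq_ck.1 (show feq (ck x) (ck z) s from h1)
    rw [h2]
    exact hz
  · intro h q _
    exact ⟨q, le_rfl, ⟨⟨x, h⟩⟩, le_top, feq_refl _ _⟩

theorem fmem_ckS : fmem (ck x) (ckS K) p ↔ x ∈ K := by
  constructor
  · intro h
    obtain ⟨s, _, ⟨⟨z, hz⟩⟩, _, h1⟩ := h p le_rfl
    have h2 : x = z := feq_ck.1 (show feq (ck x) (ck z) s from h1)
    rw [h2]
    exact hz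
  · intro h q _
    exact ⟨q, le_rfl, ⟨⟨x, h⟩⟩, le_top, feq_refl _ _⟩

/-- Unordered pairs of sets. -/
private def h54_pu (u v : PSet.{0}) : PSet.{0} := ⟨Bool, fun c => cond c u v⟩

private theorem h54_mk_pu (u v : PSet.{0}) :
    ZFSet.mk (h54_pu u v) = {ZFSet.mk u, ZFSet.mk v} := by
  ext z
  rw [ZFSet.mem_pair]
  obtain ⟨z, rfl⟩ := Quotient.exists_rep z
  constructor
  · rintro ⟨c, hc⟩
    cases c with
    | true => exact Or.inl (ZFSet.sound hc)
    | false => exact Or.inr (ZFSet.sound hc)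
  · rintro (h | h)
    · exact ⟨true, ZFSet.exact h⟩
    · exact ⟨false, ZFSet.exact h⟩

private theorem h54_chk_pu (u v : PSet.{0}) :
    (upairN (chk u) (chk v) : Nm P) = chk (h54_pu u v) := by
  change Nm.mk (ULift.{1} Bool) (fun c => cond c.down (chk u) (chk v)) (fun _ => ⊤) =
    Nm.mk (ULift.{1} Bool) (fun c => chk (cond c.down u v)) (fun _ => ⊤)
  congr 1
  funext c
  obtain ⟨c⟩ := c
  cases c <;> rfl

private theorem h54_opN (x y : Ω) : (opN (ck x) (ck y) : Nm P) =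
    chk (h54_pu (h54_pu (ps x) (ps x)) (h54_pu (ps x) (ps y))) := by
  unfold opN ck
  rw [h54_chk_pu, h54_chk_pu, h54_chk_pu]

theorem feq_opN : feq (opN (ck x) (ck y)) (opN (ck x') (ck y')) p ↔ x = x' ∧ y = y' := by
  constructor
  · intro h
    rw [h54_opN, h54_opN] at h
    have h1 := ZFSet.sound (nam_feq_chk h)
    rw [h54_mk_pu, h54_mk_pu, h54_mk_pu, h54_mk_pu, h54_mk_pu, h54_mk_pu] at h1
    have hp : ∀ a c : ZFSet.{0}, ({{a, a}, {a, c}} : ZFSet.{0}) = ZFSet.pair a c := by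
      intro a c
      have : ({a, a} : ZFSet.{0}) = {a} := by
        ext z
        rw [ZFSet.mem_pair, ZFSet.mem_singleton, or_self_iff]
      rw [this]
      rfl
    rw [hp, hp, ZFSet.pair_inj] at h1
    exact ⟨ps_equiv.1 (ZFSet.exact h1.1), ps_equiv.1 (ZFSet.exact h1.2)⟩
  · rintro ⟨rfl, rfl⟩
    exact feq_refl _ _

theorem fmem_relN {G : Ω → Ω → Set P} : fmem (opN (ck x) (ck y)) (relN G) p ↔
    ∀ q ≤ p, ∃ s ≤ q, ∃ p' ∈ G x y, s ≤ p' := by
  constructor
  · intro h q hq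
    obtain ⟨s, hs, ⟨⟨⟨a, c⟩, p'⟩, hp'⟩, h1, h2⟩ := h q hq
    obtain ⟨h3, h4⟩ := feq_opN.1 (show feq (opN (ck x) (ck y)) (opN (ck a) (ck c)) s from h2)
    refine ⟨s, hs, p', ?_, h1⟩
    rw [h3, h4]
    exact hp'
  · intro h q hq
    obtain ⟨s, hs, p', hp', h1⟩ := h q hq
    exact ⟨s, hs, ⟨((x, y), p'), hp'⟩, h1, feq_refl _ _⟩

end Pool.Agent.Helper33.QB
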